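import Mathlib
import Pool.Agent.Lib_helper20.SRO.Defs

/-!
Module B of the semantic read-once project: rectangle-free polynomials modulo a prime, by counting.
-/

namespace Pool.Agent.Lib_helper39.SRO

open Finset Pool.Agent.Lib_helper20.SRO

def mix {n : ℕ} (U : Finset (Fin n)) (a b : Fin n → Bool) : Fin n → Bool :=
  fun x => if x ∈ U then a x else b x

theorem binVal_succ {r : ℕ} (a : Fin (r + 1) → Bool) :
    binVal a = (if a 0 then 1 else 0) + 2 * binVal (fun i => a i.succ) := by
  unfold binVal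
  rw [Fin.sum_univ_succ, Finset.mul_sum]
  congr 1
  apply Finset.sum_congr rfl
  intro i _
  by_cases h : a i.succ = true
  · simp only [h, if_true, Fin.val_succ]; ring
  · simp [h]

theorem binVal_lt {r : ℕ} (a : Fin r → Bool) : binVal a < 2 ^ r := by
  induction r with
  | zero => simp [binVal]
  | succ r ih =>
    rw [binVal_succ]
    have := ih (fun i => a i.succ)
    have h2 : (if a 0 then 1 else 0) ≤ 1 := by split <;> omega
    rw [pow_succ]
    omega

theorem binVal_inj {r : ℕ} (a b : Fin r → Bool) (h : binVal a = binVal b) : a = b := by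
  induction r with
  | zero => funext i; exact i.elim0
  | succ r ih =>
    rw [binVal_succ, binVal_succ] at h
    have key : a 0 = b 0 ∧ binVal (fun i => a i.succ) = binVal (fun i => b i.succ) := by
      cases ha : a 0 <;> cases hb : b 0 <;> simp [ha, hb] at h ⊢ <;> omega
    have h2 := ih _ _ key.2
    funext i
    refine Fin.cases key.1 (fun j => ?_) i
    exact congrFun h2 j

theorem exists_binVal {r : ℕ} (N : ℕ) (h : N < 2 ^ r) : ∃ a : Fin r → Bool, binVal a = N := by
  induction r generalizing N with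
  | zero => exact ⟨fun i => i.elim0, by simp [binVal] at *; omega⟩
  | succ r ih =>
    obtain ⟨a, ha⟩ := ih (N / 2) (by rw [pow_succ] at h; omega)
    refine ⟨Fin.cons (decide (N % 2 = 1)) a, ?_⟩
    rw [binVal_succ]
    simp only [Fin.cons_zero, Fin.cons_succ]
    have : binVal (fun i => a i) = N / 2 := ha
    rw [this]
    by_cases hN : N % 2 = 1
    · simp [hN]; omega
    · simp [hN]; omega

/-- polynomial value -/
def pval {k p : ℕ} (c : Fin k → ZMod p) (v : ZMod p) : ZMod p := ∑ i : Fin k, c i * v ^ (i : ℕ)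

theorem pval_inj {k p : ℕ} [Fact p.Prime] {ι : Type} [Fintype ι] (hk : Fintype.card ι = k)
    (v : ι → ZMod p) (hv : Function.Injective v) :
    Function.Injective (fun (c : Fin k → ZMod p) (j : ι) => pval c (v j)) := by
  classical
  let e : Fin k ≃ ι := (Fintype.equivFinOfCardEq hk).symm
  have hdet : (Matrix.vandermonde (fun j => v (e j))).det ≠ 0 := by
    rw [Matrix.det_vandermonde_ne_zero_iff]
    exact hv.comp e.injective
  have hinj : Function.Injective (Matrix.vandermonde (fun j => v (e j))).mulVec := by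
    rw [Matrix.mulVec_injective_iff_isUnit, Matrix.isUnit_iff_isUnit_det]
    exact isUnit_iff_ne_zero.mpr hdet
  intro c c' h
  apply hinj
  funext j
  have := congrFun h (e j)
  simp only [pval] at this
  simp only [Matrix.mulVec, dotProduct, Matrix.vandermonde_apply]
  calc ∑ i : Fin k, v (e j) ^ (i : ℕ) * c i = ∑ i : Fin k, c i * v (e j) ^ (i : ℕ) := by
        apply Finset.sum_congr rfl; intro i _; ring
    _ = ∑ i : Fin k, c' i * v (e j) ^ (i : ℕ) := this
    _ = _ := by apply Finset.sum_congr rfl; intro i _; ring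

open Classical in
theorem card_bad {k p : ℕ} [Fact p.Prime] {ι : Type} [Fintype ι] (hk : Fintype.card ι = k)
    (v : ι → ZMod p) (hv : Function.Injective v) (S : Finset (ZMod p)) :
    (univ.filter (fun c : Fin k → ZMod p => ∀ j, pval c (v j) ∈ S)).card ≤ S.card ^ k := by
  have h := Finset.card_le_card_of_injOn (s := univ.filter (fun c : Fin k → ZMod p => ∀ j, pval c (v j) ∈ S))
    (t := Fintype.piFinset (fun _ : ι => S)) (fun c j => pval c (v j))
    (by
      intro c hc
      simp only [coe_filter, mem_univ, true_and, Set.mem_ofPred_eq] at hc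
      simp only [mem_coe, Fintype.mem_piFinset]
      exact hc)
    (fun c _ c' _ h => pval_inj hk v hv h)
  have h2 : (Fintype.piFinset (fun _ : ι => S)).card = S.card ^ k := by
    rw [Fintype.card_piFinset]
    simp [hk]
  rw [h2] at h
  exact h

/-- residues of given bit -/
def Sbit (p : ℕ) [NeZero p] (e : Bool) : Finset (ZMod p) :=
  univ.filter (fun z : ZMod p => decide (2 * z.val < p) = e)

theorem card_Sbit (p : ℕ) [NeZero p] (e : Bool) : (Sbit p e).card ≤ (p + 1) / 2 := by
  cases e with
  | true =>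
    have h := Finset.card_le_card_of_injOn (s := Sbit p true) (t := Finset.range ((p + 1) / 2))
      (fun z => z.val)
      (by
        intro z hz
        simp only [Sbit, coe_filter, mem_univ, true_and, Set.mem_ofPred_eq, decide_eq_true_eq] at hz
        simp only [coe_range, Set.mem_Iio]
        omega)
      (fun a _ b _ h => ZMod.val_injective p h)
    simpa using h
  | false =>
    have h := Finset.card_le_card_of_injOn (s := Sbit p false) (t := Finset.Ico ((p + 1) / 2) p)
      (fun z => z.val)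
      (by
        intro z hz
        simp only [Sbit, coe_filter, mem_univ, true_and, Set.mem_ofPred_eq, decide_eq_false_iff_not,
          not_lt] at hz
        have := ZMod.val_lt z
        simp only [coe_Ico, Set.mem_Ico]
        omega)
      (fun a _ b _ h => ZMod.val_injective p h)
    simp only [Nat.card_Ico] at h
    omega

theorem two_mul_sq_le (n : ℕ) (hn : 20 ≤ n) : 2 * (n + 2) ^ 2 ≤ 2 ^ n := by
  induction n, hn using Nat.le_induction with
  | base => norm_num
  | succ n hn ih => rw [pow_succ 2 n]; nlinarith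

theorem pow_bound (p k : ℕ) (hp : 0 < p) (h : 2 * k ≤ p) : (p + 1) ^ k ≤ 2 * p ^ k := by
  have h1 : (1 : ℝ) + k * (-(1 / ((p : ℝ) + 1))) ≤ (1 + (-(1 / ((p : ℝ) + 1)))) ^ k := by
    apply one_add_mul_le_pow
    have : (0 : ℝ) < (p : ℝ) + 1 := by positivity
    have h2 : 1 / ((p : ℝ) + 1) ≤ 1 := by
      rw [div_le_one this]
      have : (0 : ℝ) ≤ p := Nat.cast_nonneg _
      linarith
    linarith
  have hp1 : (0 : ℝ) < (p : ℝ) + 1 := by positivity
  have h2 : (1 : ℝ) + (-(1 / ((p : ℝ) + 1))) = p / (p + 1) := by field_simp; ring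
  rw [h2, div_pow] at h1
  have h3 : (k : ℝ) * (1 / ((p : ℝ) + 1)) ≤ 1 / 2 := by
    rw [mul_one_div, div_le_iff₀ hp1]
    have : (2 : ℝ) * k ≤ p := by exact_mod_cast h
    linarith
  have h4 : (1 : ℝ) / 2 ≤ (p : ℝ) ^ k / ((p : ℝ) + 1) ^ k := by
    have : (1 : ℝ) + k * (-(1 / ((p : ℝ) + 1))) = 1 - k * (1 / ((p : ℝ) + 1)) := by ring
    rw [this] at h1
    linarith
  rw [le_div_iff₀ (by positivity)] at h4
  have h5 : ((p : ℝ) + 1) ^ k ≤ 2 * (p : ℝ) ^ k := by linarith
  exact_mod_cast h5

open Classical in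
theorem exists_good (n p : ℕ) (hn : 20 ≤ n) [Fact p.Prime] (hp : 2 ^ n ≤ p) :
    ∃ c : Fin ((n + 2) ^ 2) → ZMod p, ∀ (e : Bool) (U : Finset (Fin n))
      (h : Fin (n + 2) → Fin n → Bool),
      Function.Injective (fun ij : Fin (n + 2) × Fin (n + 2) => mix U (h ij.1) (h ij.2)) →
      ∃ ij : Fin (n + 2) × Fin (n + 2),
        pval c ((binVal (mix U (h ij.1) (h ij.2)) : ℕ) : ZMod p) ∉ Sbit p e := by
  by_contra hcon
  push Not at hcon
  set k := (n + 2) ^ 2 with hk
  have hppos : 0 < p := (Fact.out : p.Prime).pos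
  -- the index set of the union bound
  let T : Finset (Bool × Finset (Fin n) × (Fin (n + 2) → Fin n → Bool)) :=
    univ.filter (fun t => Function.Injective
      (fun ij : Fin (n + 2) × Fin (n + 2) => mix t.2.1 (t.2.2 ij.1) (t.2.2 ij.2)))
  let B : Bool × Finset (Fin n) × (Fin (n + 2) → Fin n → Bool) → Finset (Fin k → ZMod p) :=
    fun t => univ.filter (fun c => ∀ ij : Fin (n + 2) × Fin (n + 2),
      pval c ((binVal (mix t.2.1 (t.2.2 ij.1) (t.2.2 ij.2)) : ℕ) : ZMod p) ∈ Sbit p t.1)
  have hcov : (univ : Finset (Fin k → ZMod p)) ⊆ T.biUnion B := by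
    intro c _
    obtain ⟨e, U, h, hinj, hall⟩ := hcon c
    rw [Finset.mem_biUnion]
    refine ⟨(e, U, h), ?_, ?_⟩
    · simp only [T, mem_filter, mem_univ, true_and]; exact hinj
    · simp only [B, mem_filter, mem_univ, true_and]; exact hall
  have hB : ∀ t ∈ T, (B t).card ≤ ((p + 1) / 2) ^ k := by
    intro t ht
    simp only [T, mem_filter, mem_univ, true_and] at ht
    have hv : Function.Injective (fun ij : Fin (n + 2) × Fin (n + 2) =>
        ((binVal (mix t.2.1 (t.2.2 ij.1) (t.2.2 ij.2)) : ℕ) : ZMod p)) := by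
      intro a b hab
      apply ht
      apply binVal_inj
      have h1 := congrArg ZMod.val hab
      simp only [ZMod.val_natCast] at h1
      rw [Nat.mod_eq_of_lt (lt_of_lt_of_le (binVal_lt _) hp),
        Nat.mod_eq_of_lt (lt_of_lt_of_le (binVal_lt _) hp)] at h1
      exact h1
    refine le_trans (card_bad (k := k) (by simp [hk, sq]) _ hv (Sbit p t.1)) ?_
    exact Nat.pow_le_pow_left (card_Sbit p t.1) k
  have h1 : p ^ k ≤ T.card * ((p + 1) / 2) ^ k := by
    calc p ^ k = (univ : Finset (Fin k → ZMod p)).card := by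
          simp [ZMod.card]
      _ ≤ (T.biUnion B).card := Finset.card_le_card hcov
      _ ≤ ∑ t ∈ T, (B t).card := Finset.card_biUnion_le
      _ ≤ ∑ t ∈ T, ((p + 1) / 2) ^ k := Finset.sum_le_sum hB
      _ = T.card * ((p + 1) / 2) ^ k := by simp
  have hT : T.card ≤ 2 * (2 ^ n * (2 ^ n) ^ (n + 2)) := by
    refine le_trans (Finset.card_le_univ _) ?_
    simp [Fintype.card_prod]
  have h2 : 2 ^ k * p ^ k ≤ 2 * (2 ^ n * (2 ^ n) ^ (n + 2)) * (p + 1) ^ k := by
    calc 2 ^ k * p ^ k ≤ 2 ^ k * (T.card * ((p + 1) / 2) ^ k) := Nat.mul_le_mul_left _ h1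
      _ = T.card * (2 * ((p + 1) / 2)) ^ k := by rw [mul_pow]; ring
      _ ≤ T.card * (p + 1) ^ k := by
          apply Nat.mul_le_mul_left
          apply Nat.pow_le_pow_left
          omega
      _ ≤ _ := Nat.mul_le_mul_right _ hT
  have h3 : (p + 1) ^ k ≤ 2 * p ^ k :=
    pow_bound p k hppos (le_trans (two_mul_sq_le n hn) hp)
  have h4 : 2 ^ k * p ^ k ≤ (2 ^ (n * (n + 2) + n + 2)) * p ^ k := by
    calc 2 ^ k * p ^ k ≤ 2 * (2 ^ n * (2 ^ n) ^ (n + 2)) * (p + 1) ^ k := h2
      _ ≤ 2 * (2 ^ n * (2 ^ n) ^ (n + 2)) * (2 * p ^ k) := Nat.mul_le_mul_left _ h3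
      _ = _ := by rw [← pow_mul]; ring
  have h5 : 2 ^ k ≤ 2 ^ (n * (n + 2) + n + 2) := Nat.le_of_mul_le_mul_right h4 (by positivity)
  have h6 : k ≤ n * (n + 2) + n + 2 := (Nat.pow_le_pow_iff_right (by norm_num)).mp h5
  rw [hk] at h6
  nlinarith

theorem stmtB : StmtB := by
  classical
  intro n p hn hprime hp hp2
  have : Fact p.Prime := ⟨hprime⟩
  obtain ⟨c0, hc0⟩ := exists_good n p hn hp
  have hbits : ∀ i, ∃ a : Fin (n + 1) → Bool, binVal a = (c0 i).val := fun i =>
    exists_binVal _ (lt_trans (ZMod.val_lt _) hp2)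
  choose c hc using hbits
  refine ⟨c, ?_⟩
  intro e U X Y hX hY hXc hYc
  by_contra hcon
  push Not at hcon
  have hvalue : ∀ b : Fin n → Bool, polyBit p c b = e →
      pval c0 ((binVal b : ℕ) : ZMod p) ∈ Sbit p e := by
    intro b hb
    simp only [Sbit, mem_filter, mem_univ, true_and]
    rw [← hb]
    unfold polyBit
    have : (∑ i : Fin ((n + 2) ^ 2), binVal (c i) * binVal b ^ (i : ℕ)) % p =
        (pval c0 ((binVal b : ℕ) : ZMod p)).val := by
      rw [← ZMod.val_natCast]
      congr 1
      unfold pval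
      push_cast
      apply Finset.sum_congr rfl
      intro i _
      rw [hc i, ZMod.natCast_zmod_val]
    rw [this]
  obtain ⟨α⟩ : Nonempty (Fin (n + 2) ↪ X) := by
    apply Function.Embedding.nonempty_of_card_le
    simpa using hXc
  obtain ⟨β⟩ : Nonempty (Fin (n + 2) ↪ Y) := by
    apply Function.Embedding.nonempty_of_card_le
    simpa using hYc
  let h : Fin (n + 2) → Fin n → Bool := fun i => mix U (α i) (β i)
  have hmix : ∀ i j, mix U (h i) (h j) = mix U (α i) (β j) := by
    intro i j
    funext x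
    simp only [mix, h]
    by_cases hx : x ∈ U <;> simp [hx]
  have hinj : Function.Injective (fun ij : Fin (n + 2) × Fin (n + 2) => mix U (h ij.1) (h ij.2)) := by
    rintro ⟨i, j⟩ ⟨i', j'⟩ hij
    simp only [hmix] at hij
    have h1 : (α i : Fin n → Bool) = α i' := by
      funext x
      by_cases hx : x ∈ U
      · have := congrFun hij x
        simpa [mix, hx] using this
      · rw [hX _ (α i).2 x hx, hX _ (α i').2 x hx]
    have h2 : (β j : Fin n → Bool) = β j' := by
      funext x
      by_cases hx : x ∈ U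
      · rw [hY _ (β j).2 x hx, hY _ (β j').2 x hx]
      · have := congrFun hij x
        simpa [mix, hx] using this
    have h3 : i = i' := α.injective (Subtype.ext h1)
    have h4 : j = j' := β.injective (Subtype.ext h2)
    rw [h3, h4]
  obtain ⟨⟨i, j⟩, hij⟩ := hc0 e U h hinj
  apply hij
  simp only [hmix]
  apply hvalue
  have := hcon (α i) (α i).2 (β j) (β j).2
  simp only [ne_eq, Bool.not_eq_false, decide_eq_true_eq] at this
  exact this

end Pool.Agent.Lib_helper39.SRO
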