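import Pool.Agent.Lib_helper20.SRO.Defs4

/-!
The numerical conditions of the core of the semantic read-once lower bound.
-/

namespace Pool.Agent.Lib_helper39.SRO

open Pool.Agent.Lib_helper20.SRO

theorem exp_neg_bound (z : ℝ) (hz : 0 < z) : Real.exp (-z) ≤ 2 / z ^ 2 := by
  have h1 := Real.quadratic_le_exp_of_nonneg hz.le
  rw [Real.exp_neg, le_div_iff₀ (by positivity), inv_mul_le_iff₀ (Real.exp_pos z)]
  nlinarith

theorem num_three (X : ℝ) (n : ℕ) (hX : X = n) (hn : (100 : ℝ) ≤ X) :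
    4 * ((2 : ℝ) ^ ((1 / 10 ^ 17 : ℝ) * X)) ^ 4 * (Real.sqrt 2 * (9 / 8)) ^ n <
      2 ^ n * Real.exp (-(5 * (1 / 10 ^ 17) * X * Real.log 2)) := by
  have hL1 : Real.log 2 < 0.6931471808 := Real.log_two_lt_d9
  have hL0 : 0 < Real.log 2 := Real.log_pos (by norm_num)
  have hsq : Real.sqrt 2 * (9 / 8) ≤ 1.6 := by
    have : Real.sqrt 2 ≤ 1.42 := by
      rw [Real.sqrt_le_left (by norm_num)]
      norm_num
    linarith
  have hsq0 : 0 ≤ Real.sqrt 2 * (9 / 8) := by positivity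
  have h1 : (Real.sqrt 2 * (9 / 8)) ^ n ≤ 1.6 ^ n := pow_le_pow_left₀ hsq0 hsq n
  have h2 : ((2 : ℝ) ^ ((1 / 10 ^ 17 : ℝ) * X)) ^ 4 =
      Real.exp (4 * (Real.log 2 * ((1 / 10 ^ 17) * X))) := by
    rw [Real.rpow_def_of_pos (by norm_num), ← Real.exp_nat_mul]
    norm_num
  set E := Real.exp (9 * Real.log 2 * (1 / 10 ^ 17)) with hE
  have hE1 : E ≤ 1.01 := by
    have h3 := Real.one_sub_le_exp_neg (9 * Real.log 2 * (1 / 10 ^ 17))
    rw [Real.exp_neg] at h3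
    have h4 : (0.9999 : ℝ) ≤ 1 - 9 * Real.log 2 * (1 / 10 ^ 17) := by
      have : 9 * Real.log 2 * (1 / 10 ^ 17) ≤ 9 * 1 * (1 / 10 ^ 17) := by
        have : Real.log 2 ≤ 1 := by linarith
        nlinarith
      norm_num at this ⊢
      linarith
    have h5 : (0.9999 : ℝ) ≤ E⁻¹ := le_trans h4 h3
    have hEpos : 0 < E := Real.exp_pos _
    have h6 : 0.9999 * E ≤ 1 := by
      calc 0.9999 * E ≤ E⁻¹ * E := by nlinarith
        _ = 1 := inv_mul_cancel₀ hEpos.ne'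
    linarith
  have hEn : Real.exp (9 * Real.log 2 * (1 / 10 ^ 17) * X) = E ^ n := by
    rw [hE, ← Real.exp_nat_mul, hX]
    ring_nf
  have h7 : E ^ n ≤ 1.01 ^ n := pow_le_pow_left₀ (Real.exp_pos _).le hE1 n
  -- the exponential growth
  have h8 : (4 : ℝ) * (1.01 ^ n * 1.6 ^ n) < 2 ^ n := by
    have h9 : (4 : ℝ) < (1.2) ^ n := by
      have h10 : (1 : ℝ) + (n : ℝ) * 0.2 ≤ (1 + 0.2) ^ n :=
        one_add_mul_le_pow (by norm_num) n
      have h11 : (1 : ℝ) + 0.2 = 1.2 := by norm_num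
      rw [h11, ← hX] at h10
      linarith
    have h12 : (1.01 : ℝ) ^ n * 1.6 ^ n * 1.2 ^ n ≤ 2 ^ n := by
      rw [← mul_pow, ← mul_pow]
      apply pow_le_pow_left₀ (by norm_num)
      norm_num
    have h13 : (0 : ℝ) < 1.01 ^ n * 1.6 ^ n := by positivity
    nlinarith
  have hexp : Real.exp (-(5 * (1 / 10 ^ 17) * X * Real.log 2)) *
      Real.exp (9 * Real.log 2 * (1 / 10 ^ 17) * X) =
      Real.exp (4 * (Real.log 2 * ((1 / 10 ^ 17) * X))) := by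
    rw [← Real.exp_add]
    congr 1
    ring
  rw [h2, ← hexp, hEn]
  have hpos : 0 < Real.exp (-(5 * (1 / 10 ^ 17) * X * Real.log 2)) := Real.exp_pos _
  set Z := Real.exp (-(5 * (1 / 10 ^ 17) * X * Real.log 2)) with hZ
  have h14 : 4 * (E ^ n * (Real.sqrt 2 * (9 / 8)) ^ n) < 2 ^ n := by
    have : E ^ n * (Real.sqrt 2 * (9 / 8)) ^ n ≤ 1.01 ^ n * 1.6 ^ n :=
      mul_le_mul h7 h1 (by positivity) (by positivity)
    linarith
  calc 4 * (Z * E ^ n) * (Real.sqrt 2 * (9 / 8)) ^ n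
      = Z * (4 * (E ^ n * (Real.sqrt 2 * (9 / 8)) ^ n)) := by ring
    _ < Z * 2 ^ n := mul_lt_mul_of_pos_left h14 hpos
    _ = 2 ^ n * Z := by ring

theorem stmtNum2 : StmtNum2 := by
  refine ⟨1 / 10 ^ 17, 5 / 10 ^ 8, 1 / 120, by norm_num, by norm_num, by norm_num, by norm_num,
    10 ^ 34, ?_⟩
  intro n hn
  have hX : (10 : ℝ) ^ 34 ≤ (n : ℝ) := by exact_mod_cast hn
  set X : ℝ := (n : ℝ) with hXdef
  have hL1 : Real.log 2 < 0.6931471808 := Real.log_two_lt_d9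
  have hL0 : 0 < Real.log 2 := Real.log_pos (by norm_num)
  set L := Real.log 2 with hLdef
  have hXpos : 0 < X := lt_of_lt_of_le (by norm_num) hX
  -- the exponential term
  have hexp : Real.exp (6 * (1 / 10 ^ 17) * X * L - X * (5 / 10 ^ 8) ^ 2 / 5) ≤
      2 / ((4 / 10 ^ 16) * X) ^ 2 := by
    refine le_trans ?_ (exp_neg_bound ((4 / 10 ^ 16) * X) (by positivity))
    apply Real.exp_le_exp.mpr
    have h1 : X * L ≤ X * 0.6931471808 := mul_le_mul_of_nonneg_left hL1.le hXpos.le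
    have h2 : 6 * (1 / 10 ^ 17) * X * L = (6 / 10 ^ 17) * (X * L) := by ring
    rw [h2]
    have h3 : (6 / 10 ^ 17 : ℝ) * (X * L) ≤ (6 / 10 ^ 17) * (X * 0.6931471808) :=
      mul_le_mul_of_nonneg_left h1 (by norm_num)
    have h4 : (6 / 10 ^ 17 : ℝ) * (X * 0.6931471808) - X * (5 / 10 ^ 8) ^ 2 / 5 ≤
        -((4 / 10 ^ 16) * X) := by
      have : (6 / 10 ^ 17 : ℝ) * (X * 0.6931471808) - X * (5 / 10 ^ 8) ^ 2 / 5 +
        (4 / 10 ^ 16) * X = X * ((6 / 10 ^ 17) * 0.6931471808 - (5 / 10 ^ 8) ^ 2 / 5 +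
          4 / 10 ^ 16) := by ring
      have h5 : ((6 / 10 ^ 17 : ℝ) * 0.6931471808 - (5 / 10 ^ 8) ^ 2 / 5 + 4 / 10 ^ 16) ≤ 0 := by
        norm_num
      nlinarith
    linarith
  set W := Real.exp (6 * (1 / 10 ^ 17) * X * L - X * (5 / 10 ^ 8) ^ 2 / 5) with hW
  have hW0 : 0 < W := Real.exp_pos _
  have hWX : 32 * W * X ≤ 1 := by
    have h1 : 2 / ((4 / 10 ^ 16) * X) ^ 2 * X = (2 / (4 / 10 ^ 16) ^ 2) / X := by
      field_simp
    have h2 : W * X ≤ (2 / (4 / 10 ^ 16) ^ 2) / X := by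
      rw [← h1]
      exact mul_le_mul_of_nonneg_right hexp hXpos.le
    have h3 : (2 / (4 / 10 ^ 16) ^ 2 : ℝ) / X ≤ 1 / 32 := by
      rw [div_le_iff₀ hXpos]
      have : (2 / (4 / 10 ^ 16) ^ 2 : ℝ) ≤ 1 / 32 * 10 ^ 34 := by norm_num
      nlinarith
    linarith
  have hW1 : 32 * W ≤ 1 / 4 := by
    have h4 : (4 : ℝ) ≤ X := le_trans (by norm_num) hX
    nlinarith
  refine ⟨hW1, ?_, ?_, ?_⟩
  · have e1 : 6 * (L * (5 / 10 ^ 8 * X + 4 + 2 * (5 / 10 ^ 8) * X) +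
        3 * (5 * (1 / 10 ^ 17) * X * L) / (5 / 10 ^ 8) +
        5 * (1 / 10 ^ 17) * X * L + 4 * (1 / 10 ^ 17 * X * L) + 32 * W * X * L) / (1 / 120) ^ 2 +
        4 * (1 / 120) * X + (5 / 10 ^ 8 * X + 4) =
        86400 * L * (X * (15 / 10 ^ 8 + 3 / 10 ^ 9 + 9 / 10 ^ 17) + 4 + 32 * W * X) +
          X * (1 / 30 + 5 / 10 ^ 8) + 4 := by
      ring
    rw [e1]
    have h5 : X * (15 / 10 ^ 8 + 3 / 10 ^ 9 + 9 / 10 ^ 17) + 4 + 32 * W * X ≤
        X * (15.4 / 10 ^ 8) + 5 := by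
      have : X * (15 / 10 ^ 8 + 3 / 10 ^ 9 + 9 / 10 ^ 17) ≤ X * (15.4 / 10 ^ 8) :=
        mul_le_mul_of_nonneg_left (by norm_num) hXpos.le
      linarith
    have h6 : 0 ≤ X * (15.4 / 10 ^ 8) + 5 := by positivity
    have h7 : 86400 * L * (X * (15 / 10 ^ 8 + 3 / 10 ^ 9 + 9 / 10 ^ 17) + 4 + 32 * W * X) ≤
        86400 * 0.6931471808 * (X * (15.4 / 10 ^ 8) + 5) := by
      apply mul_le_mul _ h5 _ (by norm_num)
      · nlinarith
      · positivity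
    have h8 : 86400 * 0.6931471808 * (X * (15.4 / 10 ^ 8) + 5) + X * (1 / 30 + 5 / 10 ^ 8) + 4 ≤
        X / 20 := by
      have : (10 : ℝ) ^ 34 ≤ X := hX
      norm_num at this ⊢
      linarith
    linarith
  · exact num_three X n rfl (le_trans (by norm_num) hX)
  · have : (10 : ℝ) ^ 34 ≤ X := hX
    norm_num at this ⊢
    linarith

end Pool.Agent.Lib_helper39.SRO
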