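import Pool.Agent.Lib_helper20.SRO.Defs4

/-!
Module B2 of the semantic read-once project: systems of quadratic forms without large rectangles,
by counting.
-/

namespace Pool.Agent.Lib_helper39.SRO.B2

open Finset Pool.Agent.Lib_helper20.SRO

abbrev F := ZMod 2

theorem card_preimage {G H : Type} [AddCommGroup G] [AddCommGroup H] [Fintype G] [Fintype H]
    [DecidableEq H] (f : G →+ H) (hf : Function.Surjective f) (S : Finset H) :
    (univ.filter (fun a => f a ∈ S)).card * Fintype.card H = S.card * Fintype.card G := by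
  classical
  have hfib : ∀ y, (univ.filter (fun g => f g = y)).card = (univ.filter (fun g => f g = 0)).card :=
    fun y => AddMonoidHom.card_fiber_eq_of_mem_range f (hf y) (hf 0)
  set κ := (univ.filter (fun g => f g = 0)).card with hκ
  have h1 : (univ.filter (fun a => f a ∈ S)).card = S.card * κ := by
    rw [Finset.card_eq_sum_card_fiberwise (f := f) (t := S) (by
      intro x hx
      simpa using hx)]
    rw [Finset.sum_congr rfl (g := fun _ => κ)]
    · simp
    · intro y hy
      rw [← hfib y]
      congr 1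
      ext g
      simp only [mem_filter, mem_univ, true_and]
      constructor
      · exact fun h => h.2
      · exact fun h => ⟨h ▸ hy, h⟩
  have h2 : Fintype.card G = Fintype.card H * κ := by
    rw [← Finset.card_univ, Finset.card_eq_sum_card_fiberwise (f := f) (t := univ) (by
      intro x _; simp)]
    rw [Finset.sum_congr rfl (g := fun _ => κ)]
    · simp [Finset.card_univ]
    · intro y _
      rw [← hfib y]
  rw [h1, h2]
  ring

theorem exists_dot {ι P : Type} [Fintype P] [DecidableEq P] (w : ι → P → F)
    (hw : LinearIndependent F w) (τ : ι → F) : ∃ c : P → F, ∀ i, c ⬝ᵥ w i = τ i := by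
  classical
  let b := Module.Basis.span hw
  obtain ⟨g, hg⟩ := LinearMap.exists_extend (b.constr F τ)
  refine ⟨fun p => g (fun j => if p = j then 1 else 0), fun i => ?_⟩
  have h1 : g (w i) = τ i := by
    have h2 : (w i) = ((b i : Submodule.span F (Set.range w)) : P → F) := by
      simp [b, Module.Basis.span_apply]
    rw [h2]
    have h3 := congrArg (fun f => f (b i)) hg
    simp only [LinearMap.comp_apply, Submodule.subtype_apply] at h3
    rw [h3, Module.Basis.constr_basis]
  rw [← h1, LinearMap.pi_apply_eq_sum_univ g (w i)]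
  simp only [dotProduct, smul_eq_mul]
  apply Finset.sum_congr rfl
  intro p _
  ring

theorem exists_span {P : Type} [Fintype P] [DecidableEq P] (S : Submodule F (P → F)) :
    ∃ s : P → P → F, Submodule.span F (Set.range s) = S := by
  obtain ⟨g, hg⟩ := LinearMap.exists_leftInverse_of_injective S.subtype (Submodule.ker_subtype S)
  refine ⟨fun p => (S.subtype.comp g) (Pi.single p 1), ?_⟩
  have h1 : Set.range (fun p => (S.subtype.comp g) (Pi.single p (1 : F))) =
      (S.subtype.comp g) '' (Set.range (fun p => (Pi.single p (1 : F) : P → F))) := by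
    rw [← Set.range_comp]
    rfl
  have h2 : Submodule.span F (Set.range (fun p => (Pi.single p (1 : F) : P → F))) = ⊤ := by
    have := (Pi.basisFun F P).span_eq
    convert this using 2
    congr 1
    funext p
    simp
  rw [h1, ← Submodule.map_span, h2, Submodule.map_top, LinearMap.range_comp]
  have h3 : LinearMap.range g = ⊤ := by
    rw [LinearMap.range_eq_top]
    intro x
    refine ⟨x, ?_⟩
    have := congrArg (fun f => f x) hg
    simpa using this
  rw [h3, Submodule.map_top, Submodule.range_subtype]

open Classical in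
theorem card_perp {P : Type} [Fintype P] [DecidableEq P] (S : Submodule F (P → F)) :
    (univ.filter (fun x : P → F => x ∈ S)).card *
      (univ.filter (fun w : P → F => ∀ x ∈ S, x ⬝ᵥ w = 0)).card = 2 ^ Fintype.card P := by
  let d := Module.finrank F S
  let b : Module.Basis (Fin d) F S := Module.finBasis F S
  have hind : LinearIndependent F (fun i => ((b i : S) : P → F)) :=
    b.linearIndependent.map' S.subtype (Submodule.ker_subtype S)
  let f : (P → F) →+ (Fin d → F) :=
    { toFun := fun w i => w ⬝ᵥ ((b i : S) : P → F)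
      map_zero' := by funext i; simp
      map_add' := by intro x y; funext i; simp [add_dotProduct] }
  have hf : Function.Surjective f := by
    intro τ
    obtain ⟨c, hc⟩ := exists_dot _ hind τ
    exact ⟨c, funext hc⟩
  have h1 := card_preimage f hf {0}
  have h2 : (univ.filter (fun x : P → F => x ∈ S)).card = 2 ^ d := by
    have h3 : Fintype.card S = Fintype.card F ^ Module.finrank F S := Module.card_eq_pow_finrank
    rw [ZMod.card] at h3
    rw [← h3, Fintype.card_subtype]
  have h4 : univ.filter (fun a => f a ∈ ({0} : Finset (Fin d → F))) =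
      univ.filter (fun w : P → F => ∀ x ∈ S, x ⬝ᵥ w = 0) := by
    ext w
    simp only [mem_filter, mem_univ, true_and, mem_singleton]
    constructor
    · intro h x hx
      have h5 : ∀ y : S, w ⬝ᵥ ((y : S) : P → F) = 0 := by
        intro y
        have h6 : y = ∑ i, b.repr y i • b i := (b.sum_repr y).symm
        rw [h6]
        simp only [Submodule.coe_sum, Submodule.coe_smul]
        rw [dotProduct_sum]
        apply Finset.sum_eq_zero
        intro i _
        rw [dotProduct_smul]
        have : w ⬝ᵥ ((b i : S) : P → F) = 0 := congrFun h i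
        rw [this, smul_zero]
      rw [dotProduct_comm]
      exact h5 ⟨x, hx⟩
    · intro h
      funext i
      change w ⬝ᵥ ((b i : S) : P → F) = 0
      rw [dotProduct_comm]
      exact h _ (b i).2
  rw [h4] at h1
  simp only [Fintype.card_pi, ZMod.card, prod_const, card_singleton, one_mul, card_univ,
    Fintype.card_fin] at h1
  rw [h2, mul_comm]
  exact h1

open Classical in
theorem card_pairs {P : Type} [Fintype P] [DecidableEq P] (r : ℕ) :
    (univ.filter (fun AB : (Fin r → P → F) × (Fin r → P → F) =>
      ∀ i j, AB.1 i ⬝ᵥ AB.2 j = 0)).card ≤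
      2 ^ (Fintype.card P * Fintype.card P) * 2 ^ (Fintype.card P * r) := by
  let SA : (P → P → F) → Finset (P → F) := fun s =>
    univ.filter (fun x => x ∈ Submodule.span F (Set.range s))
  let SB : (P → P → F) → Finset (P → F) := fun s =>
    univ.filter (fun w => ∀ x ∈ Submodule.span F (Set.range s), x ⬝ᵥ w = 0)
  have hcov : (univ.filter (fun AB : (Fin r → P → F) × (Fin r → P → F) =>
      ∀ i j, AB.1 i ⬝ᵥ AB.2 j = 0)) ⊆ (univ : Finset (P → P → F)).biUnion (fun s =>
        (Fintype.piFinset (fun _ : Fin r => SA s)) ×ˢ (Fintype.piFinset (fun _ : Fin r => SB s))) := by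
    rintro ⟨A, B⟩ h
    simp only [mem_filter, mem_univ, true_and] at h
    obtain ⟨s, hs⟩ := exists_span (Submodule.span F (Set.range A))
    rw [mem_biUnion]
    refine ⟨s, mem_univ _, ?_⟩
    rw [mem_product, Fintype.mem_piFinset, Fintype.mem_piFinset]
    constructor
    · intro i
      simp only [SA, mem_filter, mem_univ, true_and, hs]
      exact Submodule.subset_span ⟨i, rfl⟩
    · intro j
      simp only [SB, mem_filter, mem_univ, true_and, hs]
      intro x hx
      induction hx using Submodule.span_induction with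
      | mem x hx => obtain ⟨i, rfl⟩ := hx; exact h i j
      | zero => simp
      | add x y _ _ hx hy => rw [add_dotProduct, hx, hy, add_zero]
      | smul a x _ hx => rw [smul_dotProduct, hx, smul_zero]
  refine le_trans (Finset.card_le_card hcov) (le_trans Finset.card_biUnion_le ?_)
  have h2 : ∀ s ∈ (univ : Finset (P → P → F)), ((Fintype.piFinset (fun _ : Fin r => SA s)) ×ˢ
      (Fintype.piFinset (fun _ : Fin r => SB s))).card ≤ 2 ^ (Fintype.card P * r) := by
    intro s _
    rw [card_product, Fintype.card_piFinset, Fintype.card_piFinset]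
    simp only [prod_const, card_univ, Fintype.card_fin]
    rw [← mul_pow, card_perp, pow_mul]
  refine le_trans (Finset.sum_le_sum h2) ?_
  simp only [sum_const, card_univ, smul_eq_mul, Fintype.card_pi, prod_const, ZMod.card]
  rw [← pow_mul]

/-- the partner of an index -/
def flip {k : ℕ} (p : Fin k × Bool) : Fin k × Bool := (p.1, !p.2)

theorem flip_flip {k : ℕ} (p : Fin k × Bool) : flip (flip p) = p := by simp [flip]

open Classical in
theorem card_bad1 {n k r : ℕ} (u v : Fin r → Fin n → F)
    (hw : LinearIndependent F (Sum.elim u v)) :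
    (univ.filter (fun a : Fin k × Bool → Fin n → F =>
      ∀ i j, ∑ p, (a p ⬝ᵥ u i) * (a (flip p) ⬝ᵥ v j) = 0)).card * 2 ^ (2 * k * r) ≤
      2 ^ (2 * k * (2 * k)) * 2 ^ (n * (2 * k)) := by
  let f : (Fin k × Bool → Fin n → F) →+
      ((Fin r → Fin k × Bool → F) × (Fin r → Fin k × Bool → F)) :=
    { toFun := fun a => (fun i p => a p ⬝ᵥ u i, fun j p => a (flip p) ⬝ᵥ v j)
      map_zero' := by
        ext i p <;> simp
      map_add' := by
        intro x y
        ext i p <;> simp [add_dotProduct] }
  have hf : Function.Surjective f := by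
    rintro ⟨α, β⟩
    have h1 : ∀ p : Fin k × Bool, ∃ c : Fin n → F, ∀ i,
        c ⬝ᵥ (Sum.elim u v i) = Sum.elim (fun i => α i p) (fun j => β j (flip p)) i :=
      fun p => exists_dot _ hw _
    choose c hc using h1
    refine ⟨c, ?_⟩
    have h2 : (fun i p => c p ⬝ᵥ u i) = α := by
      funext i p
      exact hc p (Sum.inl i)
    have h3 : (fun j p => c (flip p) ⬝ᵥ v j) = β := by
      funext j p
      have := hc (flip p) (Sum.inr j)
      simp only [Sum.elim_inr, flip_flip] at this
      exact this
    exact Prod.ext h2 h3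
  let S : Finset ((Fin r → Fin k × Bool → F) × (Fin r → Fin k × Bool → F)) :=
    univ.filter (fun AB => ∀ i j, AB.1 i ⬝ᵥ AB.2 j = 0)
  have h1 : (univ.filter (fun a : Fin k × Bool → Fin n → F =>
      ∀ i j, ∑ p, (a p ⬝ᵥ u i) * (a (flip p) ⬝ᵥ v j) = 0)).card *
      Fintype.card ((Fin r → Fin k × Bool → F) × (Fin r → Fin k × Bool → F)) =
      S.card * Fintype.card (Fin k × Bool → Fin n → F) := by
    rw [← card_preimage f hf S]
    congr 1
    apply congrArg Finset.card
    ext a
    simp only [mem_filter, mem_univ, true_and, S]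
    rfl
  have h3 : S.card ≤ 2 ^ (2 * k * (2 * k)) * 2 ^ (2 * k * r) := by
    have h4 := card_pairs (P := Fin k × Bool) r
    simp only [Fintype.card_prod, Fintype.card_fin, Fintype.card_bool] at h4
    rw [mul_comm k 2] at h4
    exact h4
  have h5 : Fintype.card ((Fin r → Fin k × Bool → F) × (Fin r → Fin k × Bool → F)) =
      2 ^ (2 * k * r) * 2 ^ (2 * k * r) := by
    simp only [Fintype.card_prod, Fintype.card_pi, ZMod.card, prod_const, card_univ,
      Fintype.card_fin, Fintype.card_bool]
    rw [← pow_mul]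
    ring_nf
  have h6 : Fintype.card (Fin k × Bool → Fin n → F) = 2 ^ (n * (2 * k)) := by
    simp only [Fintype.card_prod, Fintype.card_pi, ZMod.card, prod_const, card_univ,
      Fintype.card_fin, Fintype.card_bool]
    rw [← pow_mul]
    ring_nf
  rw [h5, h6] at h1
  set N := (univ.filter (fun a : Fin k × Bool → Fin n → F =>
      ∀ i j, ∑ p, (a p ⬝ᵥ u i) * (a (flip p) ⬝ᵥ v j) = 0)).card with hN
  have h7 : (N * 2 ^ (2 * k * r)) * 2 ^ (2 * k * r) ≤
      (2 ^ (2 * k * (2 * k)) * 2 ^ (n * (2 * k))) * 2 ^ (2 * k * r) := by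
    calc (N * 2 ^ (2 * k * r)) * 2 ^ (2 * k * r) = S.card * 2 ^ (n * (2 * k)) := by
          rw [← h1]; ring
      _ ≤ (2 ^ (2 * k * (2 * k)) * 2 ^ (2 * k * r)) * 2 ^ (n * (2 * k)) :=
          Nat.mul_le_mul_right _ h3
      _ = _ := by ring
  exact Nat.le_of_mul_le_mul_right h7 (by positivity)

/-- restriction to a set of coordinates -/
def res {n : ℕ} (U : Finset (Fin n)) (x : Fin n → F) : Fin n → F := fun i => if i ∈ U then x i else 0

open Classical in
theorem exists_good (n k T r : ℕ) (hn : 1 ≤ n) (hr : 4 ≤ r) (hk : 8 * k ≤ r) (hT : n ≤ T * k) :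
    ∃ c : Fin T → Fin k × Bool → Fin n → F, ∀ (U : Finset (Fin n)) (h : Fin r → Fin n → F),
      LinearIndependent F (Sum.elim (fun i => res U (h i)) (fun i => res Uᶜ (h i))) →
      ∃ t i j, ∑ p, (c t p ⬝ᵥ res U (h i)) * (c t (flip p) ⬝ᵥ res Uᶜ (h j)) ≠ 0 := by
  by_contra hcon
  push Not at hcon
  let B1 : Finset (Fin n) × (Fin r → Fin n → F) → Finset (Fin k × Bool → Fin n → F) :=
    fun z => univ.filter (fun a : Fin k × Bool → Fin n → F =>
      ∀ i j, ∑ p, (a p ⬝ᵥ res z.1 (z.2 i)) * (a (flip p) ⬝ᵥ res z.1ᶜ (z.2 j)) = 0)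
  let Z : Finset (Finset (Fin n) × (Fin r → Fin n → F)) := univ.filter (fun z =>
    LinearIndependent F (Sum.elim (fun i => res z.1 (z.2 i)) (fun i => res z.1ᶜ (z.2 i))))
  have hcov : (univ : Finset (Fin T → Fin k × Bool → Fin n → F)) ⊆
      Z.biUnion (fun z => Fintype.piFinset (fun _ : Fin T => B1 z)) := by
    intro c _
    obtain ⟨U, h, hind, hall⟩ := hcon c
    rw [mem_biUnion]
    refine ⟨(U, h), ?_, ?_⟩
    · simp only [Z, mem_filter, mem_univ, true_and]
      exact hind
    · rw [Fintype.mem_piFinset]
      intro t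
      simp only [B1, mem_filter, mem_univ, true_and]
      exact fun i j => hall t i j
  have hB1 : ∀ z ∈ Z, (B1 z).card * 2 ^ (2 * k * r) ≤
      2 ^ (2 * k * (2 * k)) * 2 ^ (n * (2 * k)) := by
    intro z hz
    simp only [Z, mem_filter, mem_univ, true_and] at hz
    exact card_bad1 _ _ hz
  have h1 : 2 ^ (n * (2 * k) * T) * (2 ^ (2 * k * r)) ^ T ≤
      (2 ^ n * (2 ^ n) ^ r) * ((2 ^ (2 * k * (2 * k)) * 2 ^ (n * (2 * k))) ^ T) := by
    have h2 : (univ : Finset (Fin T → Fin k × Bool → Fin n → F)).card =
        2 ^ (n * (2 * k) * T) := by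
      simp only [Fintype.card_prod, Fintype.card_pi, ZMod.card, prod_const, card_univ,
        Fintype.card_fin, Fintype.card_bool]
      rw [← pow_mul, ← pow_mul]
      ring_nf
    have h3 : (Z.card : ℕ) ≤ 2 ^ n * (2 ^ n) ^ r := by
      refine le_trans (card_le_univ _) ?_
      simp [Fintype.card_prod]
    calc 2 ^ (n * (2 * k) * T) * (2 ^ (2 * k * r)) ^ T
        ≤ (∑ z ∈ Z, (B1 z).card ^ T) * (2 ^ (2 * k * r)) ^ T := by
          apply Nat.mul_le_mul_right
          rw [← h2]
          refine le_trans (card_le_card hcov) (le_trans card_biUnion_le ?_)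
          apply le_of_eq
          apply sum_congr rfl
          intro z _
          rw [Fintype.card_piFinset]
          simp
      _ = ∑ z ∈ Z, ((B1 z).card * 2 ^ (2 * k * r)) ^ T := by
          rw [sum_mul]
          apply sum_congr rfl
          intro z _
          rw [mul_pow]
      _ ≤ ∑ z ∈ Z, (2 ^ (2 * k * (2 * k)) * 2 ^ (n * (2 * k))) ^ T := by
          apply sum_le_sum
          intro z hz
          exact Nat.pow_le_pow_left (hB1 z hz) T
      _ = Z.card * (2 ^ (2 * k * (2 * k)) * 2 ^ (n * (2 * k))) ^ T := by simp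
      _ ≤ _ := Nat.mul_le_mul_right _ h3
  have h4 : 2 ^ (n * (2 * k) * T + 2 * k * r * T) ≤
      2 ^ (n + n * r + (2 * k * (2 * k) + n * (2 * k)) * T) := by
    calc 2 ^ (n * (2 * k) * T + 2 * k * r * T) = 2 ^ (n * (2 * k) * T) * (2 ^ (2 * k * r)) ^ T := by
          rw [← pow_mul, ← pow_add]
      _ ≤ _ := h1
      _ = _ := by
          rw [← pow_mul, ← pow_add, ← pow_add, ← pow_mul, ← pow_add]
  have h5 := (Nat.pow_le_pow_iff_right (by norm_num : 1 < 2)).mp h4
  have hkT : 1 ≤ T * k := le_trans hn hT
  have h6 : T * k * (8 * k) ≤ T * k * r := Nat.mul_le_mul_left _ hk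
  have h7 : n * r ≤ T * k * r := Nat.mul_le_mul_right _ hT
  have h8 : T * k * 4 ≤ T * k * r := Nat.mul_le_mul_left _ hr
  nlinarith

/-- large sets contain affinely independent families -/
theorem exists_indep {n r : ℕ} (X : Finset (Fin n → F)) (hX : 2 ^ r ≤ X.card) :
    ∃ x0 ∈ X, ∃ x : Fin r → Fin n → F, (∀ i, x i ∈ X) ∧
      LinearIndependent F (fun i => x i - x0) := by
  classical
  have hne : X.Nonempty := by
    rw [← Finset.card_pos]
    exact lt_of_lt_of_le (by positivity) hX
  obtain ⟨x0, hx0⟩ := hne
  refine ⟨x0, hx0, ?_⟩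
  let D : Set (Fin n → F) := (fun x => x - x0) '' (X : Set (Fin n → F))
  obtain ⟨b, hbD, hbspan, hbind⟩ := exists_linearIndependent F D
  have hbfin : b.Finite := Set.toFinite b
  have : Fintype b := hbfin.fintype
  -- the cardinality of the span
  have h1 : X.card ≤ Fintype.card (Submodule.span F D) := by
    have h2 : ∀ x ∈ X, x - x0 ∈ Submodule.span F D := fun x hx =>
      Submodule.subset_span ⟨x, hx, rfl⟩
    have h3 : (X.attach.image (fun x : {x // x ∈ X} => (⟨x.1 - x0, h2 x.1 x.2⟩ :
        Submodule.span F D))).card = X.card := by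
      rw [Finset.card_image_of_injective _ (by
        intro x y hxy
        have := congrArg Subtype.val hxy
        simp only [sub_left_inj] at this
        exact Subtype.ext this), Finset.card_attach]
    rw [← h3]
    exact Finset.card_le_univ _
  have h4 : Fintype.card (Submodule.span F D) = 2 ^ Module.finrank F (Submodule.span F D) := by
    have h5 : Fintype.card (Submodule.span F D) =
      Fintype.card F ^ Module.finrank F (Submodule.span F D) := Module.card_eq_pow_finrank
    rw [ZMod.card] at h5
    exact h5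
  have h6 : r ≤ Module.finrank F (Submodule.span F D) := by
    have := le_trans hX h1
    rw [h4] at this
    exact (Nat.pow_le_pow_iff_right (by norm_num)).mp this
  have h7 : Module.finrank F (Submodule.span F D) = Fintype.card b := by
    rw [← hbspan]
    have h8 := finrank_span_eq_card hbind
    rw [Subtype.range_coe] at h8
    exact h8
  rw [h7] at h6
  obtain ⟨e⟩ : Nonempty (Fin r ↪ b) := by
    apply Function.Embedding.nonempty_of_card_le
    simpa using h6
  have h9 : ∀ i, ∃ x ∈ X, x - x0 = (e i : Fin n → F) := by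
    intro i
    obtain ⟨x, hx, hxe⟩ := hbD (e i).2
    exact ⟨x, hx, hxe⟩
  choose x hx hxe using h9
  refine ⟨x, hx, ?_⟩
  have h10 : (fun i => x i - x0) = (fun i => ((e i : b) : Fin n → F)) := funext hxe
  rw [h10]
  exact hbind.comp e e.injective

/-- bits as elements of the field -/
def toF (b : Bool) : F := if b then 1 else 0

def ofF (a : F) : Bool := decide (a = 1)

theorem toF_ofF (a : F) : toF (ofF a) = a := by
  revert a; decide

theorem toF_inj (a b : Bool) (h : toF a = toF b) : a = b := by
  revert h; revert a b; decide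

theorem dot_eq {n : ℕ} (a b : Fin n → Bool) :
    dot a b = (fun i => toF (a i)) ⬝ᵥ (fun i => toF (b i)) := by
  unfold dot dotProduct toF
  apply Finset.sum_congr rfl
  intro i _
  by_cases ha : a i = true <;> by_cases hb : b i = true <;> simp [ha, hb]

/-- vectors vanishing on a set of coordinates -/
def vanish {n : ℕ} (A : Finset (Fin n)) : Submodule F (Fin n → F) where
  carrier := {z | ∀ p ∈ A, z p = 0}
  add_mem' := by
    intro a b ha hb p hp
    simp [ha p hp, hb p hp]
  zero_mem' := by intro p _; rfl
  smul_mem' := by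
    intro c a ha p hp
    simp [ha p hp]

theorem stmtB2 : StmtB2 := by
  classical
  intro n k T r hn hr hk hT
  obtain ⟨c, hc⟩ := exists_good n k T r hn hr hk hT
  refine ⟨fun t l s i => ofF (c t (l, s) i), ?_⟩
  intro e U X Y hX hY hXc hYc
  by_contra hcon
  push Not at hcon
  -- the value of the forms
  let val : Fin T → (Fin n → F) → F := fun t b => ∑ l : Fin k, (c t (l, false) ⬝ᵥ b) * (c t (l, true) ⬝ᵥ b)
  have hval : ∀ t (b : Fin n → Bool),
      quad (fun l s i => ofF (c t (l, s) i)) b = val t (fun i => toF (b i)) := by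
    intro t b
    simp only [quad, val, dot_eq, toF_ofF]
  -- the sets over the field
  let XF : Finset (Fin n → F) := X.image (fun a i => toF (a i))
  let YF : Finset (Fin n → F) := Y.image (fun a i => toF (a i))
  have hinj : Function.Injective (fun (a : Fin n → Bool) i => toF (a i)) := by
    intro a b h
    funext i
    exact toF_inj _ _ (congrFun h i)
  have hXF : 2 ^ r ≤ XF.card := by rw [Finset.card_image_of_injective _ hinj]; exact hXc
  have hYF : 2 ^ r ≤ YF.card := by rw [Finset.card_image_of_injective _ hinj]; exact hYc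
  have hXs : ∀ x ∈ XF, ∀ i, i ∉ U → x i = 0 := by
    intro x hx i hi
    obtain ⟨a, ha, rfl⟩ := Finset.mem_image.mp hx
    simp [toF, hX a ha i hi]
  have hYs : ∀ y ∈ YF, ∀ i, i ∈ U → y i = 0 := by
    intro y hy i hi
    obtain ⟨a, ha, rfl⟩ := Finset.mem_image.mp hy
    simp [toF, hY a ha i hi]
  have hXY : ∀ x ∈ XF, ∀ y ∈ YF, ∀ t, val t (x + y) = if e t then 1 else 0 := by
    intro x hx y hy t
    obtain ⟨a, ha, rfl⟩ := Finset.mem_image.mp hx
    obtain ⟨a', ha', rfl⟩ := Finset.mem_image.mp hy
    have h1 := hcon a ha a' ha'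
    simp only [ne_eq, Bool.not_eq_false, QF, Bool.and_eq_true, decide_eq_true_eq] at h1
    have h2 := h1.2 t
    rw [hval] at h2
    rw [← h2]
    congr 1
    funext i
    by_cases hi : i ∈ U
    · simp [hi, hY a' ha' i hi, toF]
    · simp [hi, hX a ha i hi, toF]
  obtain ⟨x0, hx0, x, hx, hxi⟩ := exists_indep XF hXF
  obtain ⟨y0, hy0, y, hy, hyi⟩ := exists_indep YF hYF
  let h : Fin r → Fin n → F := fun i => (x i - x0) + (y i - y0)
  have hu : ∀ i, res U (h i) = x i - x0 := by
    intro i
    funext p
    simp only [res, h, Pi.add_apply, Pi.sub_apply]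
    by_cases hp : p ∈ U
    · simp [hp, hYs _ (hy i) p hp, hYs _ hy0 p hp]
    · simp [hp, hXs _ (hx i) p hp, hXs _ hx0 p hp]
  have hv : ∀ i, res Uᶜ (h i) = y i - y0 := by
    intro i
    funext p
    simp only [res, h, Pi.add_apply, Pi.sub_apply]
    by_cases hp : p ∈ U
    · simp [hp, hYs _ (hy i) p hp, hYs _ hy0 p hp]
    · simp [hp, hXs _ (hx i) p hp, hXs _ hx0 p hp]
  have hind : LinearIndependent F (Sum.elim (fun i => res U (h i)) (fun i => res Uᶜ (h i))) := by
    have e1 : (fun i => res U (h i)) = (fun i => x i - x0) := funext hu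
    have e2 : (fun i => res Uᶜ (h i)) = (fun i => y i - y0) := funext hv
    rw [e1, e2]
    apply LinearIndependent.sum_type hxi hyi
    rw [Submodule.disjoint_def]
    intro z hz1 hz2
    have k1 : z ∈ vanish Uᶜ := by
      refine (Submodule.span_le.mpr ?_) hz1
      rintro _ ⟨i, rfl⟩ p hp
      have hp' : p ∉ U := by simpa using hp
      simp [hXs _ (hx i) p hp', hXs _ hx0 p hp']
    have k2 : z ∈ vanish U := by
      refine (Submodule.span_le.mpr ?_) hz2
      rintro _ ⟨i, rfl⟩ p hp
      simp [hYs _ (hy i) p hp, hYs _ hy0 p hp]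
    funext p
    by_cases hp : p ∈ U
    · exact k2 p hp
    · exact k1 p (by simpa using hp)
  obtain ⟨t, i, j, hne⟩ := hc U h hind
  apply hne
  rw [hu, hv]
  have q1 := hXY (x i) (hx i) (y j) (hy j) t
  have q2 := hXY (x i) (hx i) y0 hy0 t
  have q3 := hXY x0 hx0 (y j) (hy j) t
  have q4 := hXY x0 hx0 y0 hy0 t
  have hsum : ∑ p, (c t p ⬝ᵥ (x i - x0)) * (c t (flip p) ⬝ᵥ (y j - y0)) =
      val t (x i + y j) - val t (x i + y0) - val t (x0 + y j) + val t (x0 + y0) := by
    rw [Fintype.sum_prod_type]
    simp only [val]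
    rw [← Finset.sum_sub_distrib, ← Finset.sum_sub_distrib, ← Finset.sum_add_distrib]
    apply Finset.sum_congr rfl
    intro l _
    simp only [Fintype.sum_bool, flip, Bool.not_true, Bool.not_false, dotProduct_add,
      dotProduct_sub]
    ring
  rw [hsum, q1, q2, q3, q4]
  ring

end Pool.Agent.Lib_helper39.SRO.B2
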